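import Pool.Agent.Mg.F920d98p.G1423bb
import Pool.Agent.Mg.F920d98p.Gda1680

set_option autoImplicit false

namespace Pool.Agent.Results.MP_920d98_co.Cylindrical

open Pool.Agent.MP_920d98_co

/-- A simple intersecting arrangement of `n ≥ 3` pseudocircles in which two points are separated
by every pseudocircle (a cylindrical arrangement) has at least `n - 1` triangles. -/
theorem result :
    ∀ n : ℕ, 3 ≤ n → ∀ γ : Fin n → Circle → ℂ,
      (∀ i, Continuous (γ i) ∧ Function.Injective (γ i)) →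
      (∀ i j, i ≠ j →
        (Set.range (γ i) ∩ Set.range (γ j)).ncard = 2 ∧
        ∃ x ∈ Set.range (γ i) \ Set.range (γ j),
          ∃ y ∈ Set.range (γ i) \ Set.range (γ j),
            y ∉ connectedComponentIn (Set.range (γ j))ᶜ x) →
      (∀ i j k, i ≠ j → j ≠ k → i ≠ k →
        Set.range (γ i) ∩ Set.range (γ j) ∩ Set.range (γ k) = ∅) →
      (∃ p q : ℂ, ∀ i, p ∉ Set.range (γ i) ∧ q ∉ Set.range (γ i) ∧
        q ∉ connectedComponentIn (Set.range (γ i))ᶜ p) →
      n - 1 ≤ Set.ncard {F : Set ℂ |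
        (∃ x, x ∉ (⋃ i, Set.range (γ i)) ∧
          F = connectedComponentIn (⋃ i, Set.range (γ i))ᶜ x) ∧
        (closure F ∩ {p : ℂ | ∃ i j, i ≠ j ∧ p ∈ Set.range (γ i) ∧
          p ∈ Set.range (γ j)}).ncard = 3} := by
  rintro n hn γ h1 h2 h3 ⟨p, q, h⟩
  obtain ⟨A, a, b⟩ := bridge (by omega) h1 h2 h3
  obtain ⟨d, d', e⟩ := b p (by simpa using fun i => (h i).1) q (by simpa using fun i => (h i).2.1)
  exact (A.cyl hn fun c w hw => e c w hw (h c).2.2).trans a

end Pool.Agent.Results.MP_920d98_co.Cylindrical
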