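import Pool.Agent.MP_920d98_co.Cx.Main

set_option autoImplicit false

namespace Pool.Agent.Results.MP_920d98_co.TenCurves

open Pool.Agent.MP_920d98_co.Cx

/-- A simple intersecting arrangement of ten pseudocircles with at most eight triangles. -/
theorem result :
    ∃ γ : Fin 10 → Circle → ℂ,
      (∀ i, Continuous (γ i) ∧ Function.Injective (γ i)) ∧
      (∀ i j, i ≠ j →
        (Set.range (γ i) ∩ Set.range (γ j)).ncard = 2 ∧
        ∃ x ∈ Set.range (γ i) \ Set.range (γ j),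
          ∃ y ∈ Set.range (γ i) \ Set.range (γ j),
            y ∉ connectedComponentIn (Set.range (γ j))ᶜ x) ∧
      (∀ i j k, i ≠ j → j ≠ k → i ≠ k →
        Set.range (γ i) ∩ Set.range (γ j) ∩ Set.range (γ k) = ∅) ∧
      Set.encard {F : Set ℂ |
        (∃ x, x ∉ (⋃ i, Set.range (γ i)) ∧
          F = connectedComponentIn (⋃ i, Set.range (γ i))ᶜ x) ∧
        (closure F ∩ {p : ℂ | ∃ i j, i ≠ j ∧ p ∈ Set.range (γ i) ∧
          p ∈ Set.range (γ j)}).ncard = 3} ≤ 8 := by
  obtain ⟨γ, h1, h2⟩ := curves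
  refine ⟨γ, h1, ?_⟩
  simp only [h2, union, points]
  exact ⟨fun i j a => cross i.2 j.2 (Fin.val_ne_of_ne a), fun i j k a b c =>
    triple (Fin.val_ne_of_ne a) (Fin.val_ne_of_ne b) (Fin.val_ne_of_ne c), ecount⟩

end Pool.Agent.Results.MP_920d98_co.TenCurves
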